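import Pool.Agent.H5.SRG.Defs

set_option autoImplicit false
set_option maxHeartbeats 4000000

namespace Pool.Agent.H51.SRG

open Pool.Agent.H5.SRG

theorem asyL (A : ℝ) (hA : 0 < A) : ∃ n0 : ℕ, ∀ n : ℕ, n0 ≤ n → ∀ p : ℝ,
    1 / (n * Real.log n) ≤ p → p ≤ 10 ^ (-26 : ℤ) * Real.log n / n →
    (1 - (1 - (1 - p) ^ (n / (2 * DD n p))) ^ (DD n p)) ^ (n / 2) ≤ (n : ℝ) ^ (-A) / 2 := by
  have e2 : ∀ᶠ l : ℝ in Filter.atTop, ‖(Real.log l) ^ 1‖ ≤ (1 / 8) * ‖l‖ :=
    (Real.isLittleO_pow_log_id_atTop (n := 1)).bound (by positivity)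
  have e3 : ∀ᶠ l : ℝ in Filter.atTop, 2 ≤ Real.log l := Real.tendsto_log_atTop.eventually_ge_atTop 2
  have t0 : Filter.Tendsto (fun n : ℕ => Real.log (n : ℝ)) Filter.atTop Filter.atTop :=
    Real.tendsto_log_atTop.comp tendsto_natCast_atTop_atTop
  have e := (t0.eventually e2).and ((t0.eventually e3).and
    ((t0.eventually (Filter.eventually_ge_atTop (max 16 (24 * (A + 1))))).and (Filter.eventually_ge_atTop 3)))
  obtain ⟨n0, hn0⟩ := Filter.eventually_atTop.1 e
  refine ⟨n0, fun n hn p hp1 hp2 => ?_⟩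
  obtain ⟨g2, g3, g4, g5⟩ := hn0 n hn
  have hn3 : (3 : ℝ) ≤ n := by exact_mod_cast g5
  have hnpos : (0 : ℝ) < n := by linarith
  obtain ⟨l, hl⟩ : ∃ l : ℝ, l = Real.log n := ⟨_, rfl⟩
  rw [← hl] at g2 g3 g4 hp1 hp2
  have hl16 : 16 ≤ l := (le_max_left _ _).trans g4
  have hlA : 24 * (A + 1) ≤ l := (le_max_right _ _).trans g4
  have hlpos : 0 < l := by linarith
  obtain ⟨m, hm⟩ : ∃ m : ℝ, m = Real.log l := ⟨_, rfl⟩
  rw [← hm] at g2 g3
  have hmpos : 0 < m := by linarith
  rw [Real.norm_of_nonneg (by positivity), Real.norm_of_nonneg hlpos.le, pow_one] at g2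
  have hne : (n : ℝ) = Real.exp l := by rw [hl, Real.exp_log hnpos]
  have hle : l = Real.exp m := by rw [hm, Real.exp_log hlpos]
  have hnl : l ^ 2 / 2 ≤ n := by
    rw [hne]
    exact (Real.quadratic_le_exp_of_nonneg hlpos.le).trans' (by linarith)
  have hn4l : 4 * l ≤ n := by nlinarith
  have hp0 : 0 < p := lt_of_lt_of_le (by positivity) hp1
  have hd1 : 1 / l ≤ n * p := by
    rw [div_le_iff₀ hlpos]
    rw [div_le_iff₀ (by positivity)] at hp1
    linarith
  have hd2 : n * p ≤ l / 10 ^ 26 := by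
    rw [le_div_iff₀ hnpos] at hp2
    rw [zpow_neg] at hp2
    norm_num at hp2 ⊢
    linarith
  obtain ⟨d, hd⟩ : ∃ d : ℝ, d = n * p := ⟨_, rfl⟩
  rw [← hd] at hd1 hd2
  have hdpos : 0 < d := lt_of_lt_of_le (by positivity) hd1
  have hp1' : p ≤ 1 := by
    have h1 : n * p ≤ n * 1 := by
      rw [← hd]
      have : l / 10 ^ 26 ≤ l := div_le_self hlpos.le (by norm_num)
      linarith
    exact le_of_mul_le_mul_left h1 hnpos
  -- the number `D`
  have hD1 : l / (8 * m) ≤ (DD n p : ℝ) := by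
    unfold DD
    rw [← hl, ← hm]
    exact (le_max_left _ _).trans (Nat.le_ceil _)
  have hD2 : 10 ^ 22 * d ≤ (DD n p : ℝ) := by
    unfold DD
    rw [hd]
    exact (le_max_right _ _).trans (Nat.le_ceil _)
  have hD3 : (DD n p : ℝ) < max (l / (8 * m)) (10 ^ 22 * d) + 1 := by
    unfold DD
    rw [← hl, ← hm, ← hd]
    apply Nat.ceil_lt_add_one
    exact (by positivity : 0 ≤ l / (8 * m)).trans (le_max_left _ _)
  generalize DD n p = D at *
  have hDpos : (0 : ℝ) < D := lt_of_lt_of_le (by positivity) hD1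
  have hDnat : 0 < D := by exact_mod_cast hDpos
  have hl8m : 1 ≤ l / (8 * m) := by
    rw [le_div_iff₀ (by positivity)]
    linarith
  have hlm16 : l / (8 * m) ≤ l / 16 := div_le_div_of_nonneg_left hlpos.le (by norm_num) (by linarith)
  -- the exponent `t`
  obtain ⟨t, ht0, ht1, ht2⟩ : ∃ t : ℝ, 0 ≤ t ∧ t * D ≤ l / 2 ∧ Real.exp (-t) ≤ d / (8 * D) := by
    rcases le_total (10 ^ 22 * d) (l / (8 * m)) with h | h
    · rw [max_eq_left h] at hD3
      refine ⟨2 * m, by positivity, ?_, ?_⟩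
      · have h1 : 2 * m * D ≤ 2 * m * (l / (8 * m) + 1) := mul_le_mul_of_nonneg_left hD3.le (by positivity)
        have h2 : 2 * m * (l / (8 * m) + 1) = l / 4 + 2 * m := by
          field_simp
          ring
        linarith
      · have h1 : Real.exp (-(2 * m)) = 1 / l ^ 2 := by
          rw [hle, ← Real.exp_nat_mul, one_div, ← Real.exp_neg]
          push_cast
          rfl
        rw [h1, div_le_div_iff₀ (by positivity) (by positivity)]
        have h2 : (8 : ℝ) * D ≤ l := by linarith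
        have h3 : 1 ≤ d * l := by
          rw [div_le_iff₀ hlpos] at hd1
          exact hd1
        calc 1 * (8 * (D : ℝ)) ≤ l := by linarith
          _ ≤ (d * l) * l := by nlinarith
          _ = d * l ^ 2 := by ring
    · rw [max_eq_right h] at hD3
      have h0 : (D : ℝ) ≤ 2 * 10 ^ 22 * d := by linarith
      refine ⟨60, by norm_num, ?_, ?_⟩
      · have h1 : 60 * (D : ℝ) ≤ 60 * (2 * 10 ^ 22 * (l / 10 ^ 26)) := by
          have : 2 * 10 ^ 22 * d ≤ 2 * 10 ^ 22 * (l / 10 ^ 26) := mul_le_mul_of_nonneg_left hd2 (by norm_num)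
          linarith
        have h2 : 60 * (2 * 10 ^ 22 * (l / 10 ^ 26)) = l * (120 / 10 ^ 4) := by ring
        have h3 : l * (120 / 10 ^ 4) ≤ l / 2 := by
          have : l * (120 / 10 ^ 4) ≤ l * (1 / 2) := mul_le_mul_of_nonneg_left (by norm_num) hlpos.le
          linarith
        linarith
      · have h1 : (16 * 10 ^ 22 : ℝ) ≤ Real.exp 60 := by
          have h2 : Real.exp 60 = Real.exp 1 ^ 60 := by
            rw [← Real.exp_nat_mul]
            norm_num
          have h3 : (2.7 : ℝ) ≤ Real.exp 1 := by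
            have := Real.exp_one_gt_d9
            linarith
          rw [h2]
          calc (16 * 10 ^ 22 : ℝ) ≤ 2.7 ^ 60 := by norm_num
            _ ≤ Real.exp 1 ^ 60 := pow_le_pow_left₀ (by norm_num) h3 60
        rw [Real.exp_neg, inv_eq_one_div, div_le_div_iff₀ (Real.exp_pos _) (by positivity)]
        calc 1 * (8 * (D : ℝ)) ≤ 16 * 10 ^ 22 * d := by linarith
          _ ≤ Real.exp 60 * d := mul_le_mul_of_nonneg_right h1 hdpos.le
          _ = d * Real.exp 60 := mul_comm _ _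
  -- `D ≤ l / 4`
  have hDl : 4 * (D : ℝ) ≤ n := by
    have h1 : (D : ℝ) ≤ l := by
      refine hD3.le.trans ?_
      have h2 : max (l / (8 * m)) (10 ^ 22 * d) ≤ l / 16 := by
        apply max_le hlm16
        have h3 : 10 ^ 22 * d ≤ 10 ^ 22 * (l / 10 ^ 26) := mul_le_mul_of_nonneg_left hd2 (by norm_num)
        have h4 : 10 ^ 22 * (l / 10 ^ 26) = l / 10 ^ 4 := by ring
        have h5 : l / 10 ^ 4 ≤ l / 16 := div_le_div_of_nonneg_left hlpos.le (by norm_num) (by norm_num)
        linarith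
      linarith
    linarith
  have hDn : 4 * D ≤ n := by exact_mod_cast hDl
  -- the number `M`
  obtain ⟨M, hM⟩ : ∃ M : ℕ, M = n / (2 * D) := ⟨_, rfl⟩
  have hM1 : M * (2 * D) ≤ n := by
    rw [hM]
    exact Nat.div_mul_le_self _ _
  have hM2 : n < (M + 1) * (2 * D) := by
    rw [hM, mul_comm]
    exact Nat.lt_mul_div_succ n (by omega)
  have hM3 : 1 ≤ M := by
    rw [hM, Nat.one_le_div_iff (by omega)]
    omega
  have hM4 : n ≤ M * (4 * D) := by nlinarith
  have hM4' : (n : ℝ) ≤ M * (4 * D) := by exact_mod_cast hM4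
  have hM1' : (M : ℝ) * (2 * D) ≤ n := by exact_mod_cast hM1
  rw [← hM]
  have hMpos : (0 : ℝ) < M := by exact_mod_cast hM3
  have hpM : p * M ≤ 1 := by
    have h1 : p * M * (2 * D) ≤ 1 * (2 * D) := by
      calc p * M * (2 * D) = p * (M * (2 * D)) := by ring
        _ ≤ p * n := mul_le_mul_of_nonneg_left hM1' hp0.le
        _ = d := by rw [hd, mul_comm]
        _ ≤ 1 * (2 * D) := by linarith
    exact le_of_mul_le_mul_right h1 (by positivity)
  obtain ⟨q, hq⟩ : ∃ q : ℝ, q = 1 - (1 - p) ^ M := ⟨_, rfl⟩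
  rw [← hq]
  have hq1 : q ≤ 1 := by
    rw [hq]
    have : 0 ≤ (1 - p) ^ M := pow_nonneg (by linarith) _
    linarith
  have hq0 : d / (8 * D) ≤ q := by
    have h1 : (1 - p) ^ M ≤ Real.exp (-(p * M)) := by
      have h2 : 1 - p ≤ Real.exp (-p) := Real.one_sub_le_exp_neg p
      calc (1 - p) ^ M ≤ Real.exp (-p) ^ M := pow_le_pow_left₀ (by linarith) h2 M
        _ = Real.exp (-(p * M)) := by
          rw [← Real.exp_nat_mul]
          congr 1
          ring
    have h2 : Real.exp (-(p * M)) ≤ 1 - p * M / 2 := by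
      have hy0 : 0 ≤ p * M := by positivity
      generalize p * (M : ℝ) = y at hy0 hpM
      have h3 := Real.add_one_le_exp y
      have h4 : 1 ≤ (1 - y / 2) * (y + 1) := by
        have h5 : 0 ≤ y * (1 - y) := mul_nonneg hy0 (sub_nonneg.2 hpM)
        have h6 : (1 - y / 2) * (y + 1) = 1 + y * (1 - y) / 2 := by ring
        linarith
      have h5 : (1 - y / 2) * (y + 1) ≤ (1 - y / 2) * Real.exp y := mul_le_mul_of_nonneg_left h3 (by linarith)
      rw [Real.exp_neg, inv_eq_one_div, div_le_iff₀ (Real.exp_pos _)]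
      linarith
    have h3 : d / (8 * D) ≤ p * M / 2 := by
      rw [div_le_iff₀ (by positivity)]
      calc d = p * n := by rw [hd, mul_comm]
        _ ≤ p * (M * (4 * D)) := mul_le_mul_of_nonneg_left hM4' hp0.le
        _ = p * M / 2 * (8 * D) := by ring
    rw [hq]
    linarith
  have hqt : Real.exp (-(l / 2)) ≤ q ^ D := by
    calc Real.exp (-(l / 2)) ≤ Real.exp (-(t * D)) := Real.exp_le_exp.2 (by linarith)
      _ = Real.exp (-t) ^ D := by
        rw [← Real.exp_nat_mul]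
        congr 1
        ring
      _ ≤ q ^ D := pow_le_pow_left₀ (Real.exp_pos _).le (ht2.trans hq0) D
  have hq00 : 0 ≤ q := le_trans (by positivity) hq0
  have hqD1 : q ^ D ≤ 1 := pow_le_one₀ hq00 hq1
  have hN : (n : ℝ) / 3 ≤ ((n / 2 : ℕ) : ℝ) := by
    have h1 : n ≤ 3 * (n / 2) := by omega
    have h2 : (n : ℝ) ≤ 3 * ((n / 2 : ℕ) : ℝ) := by exact_mod_cast h1
    linarith
  have h1 : (1 - q ^ D) ^ (n / 2) ≤ Real.exp (-(Real.exp (l / 2) / 3)) := by
    calc (1 - q ^ D) ^ (n / 2) ≤ Real.exp (-(q ^ D)) ^ (n / 2) :=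
          pow_le_pow_left₀ (by linarith) (Real.one_sub_le_exp_neg _) _
      _ = Real.exp (-(q ^ D * ((n / 2 : ℕ) : ℝ))) := by
        rw [← Real.exp_nat_mul]
        congr 1
        ring
      _ ≤ Real.exp (-(Real.exp (l / 2) / 3)) := by
        apply Real.exp_le_exp.2
        have h2 : Real.exp (-(l / 2)) * ((n : ℝ) / 3) ≤ q ^ D * ((n / 2 : ℕ) : ℝ) :=
          mul_le_mul hqt hN (by positivity) (by positivity)
        have h3 : Real.exp (-(l / 2)) * ((n : ℝ) / 3) = Real.exp (l / 2) / 3 := by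
          rw [hne, mul_div_assoc', ← Real.exp_add]
          congr 2
          ring
        linarith
  have hnA : (n : ℝ) ^ (-A) = Real.exp (-A * l) := by
    rw [Real.rpow_def_of_pos hnpos, ← hl, mul_comm]
  have h2e : (2 : ℝ) ≤ Real.exp 1 := by
    have := Real.exp_one_gt_d9
    linarith
  refine h1.trans ?_
  rw [hnA, le_div_iff₀ (by norm_num)]
  calc Real.exp (-(Real.exp (l / 2) / 3)) * 2 ≤ Real.exp (-(Real.exp (l / 2) / 3)) * Real.exp 1 :=
        mul_le_mul_of_nonneg_left h2e (Real.exp_pos _).le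
    _ = Real.exp (-(Real.exp (l / 2) / 3) + 1) := by rw [← Real.exp_add]
    _ ≤ Real.exp (-A * l) := by
      apply Real.exp_le_exp.2
      have h3 : (l / 2) ^ 2 / 2 ≤ Real.exp (l / 2) :=
        (Real.quadratic_le_exp_of_nonneg (by linarith : (0 : ℝ) ≤ l / 2)).trans' (by linarith)
      nlinarith

end Pool.Agent.H51.SRG
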