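import Mathlib

set_option autoImplicit false

namespace Pool.Agent.H51.SRG

open Finset

/-- the terms of `N ^ N = (m + (N - m)) ^ N` -/
def aj (N m j : ℕ) : ℕ := N.choose j * m ^ j * (N - m) ^ (N - j)

theorem aj_succ {N m j : ℕ} (hj : j < N) : aj N m (j + 1) * ((j + 1) * (N - m)) = aj N m j * ((N - j) * m) := by
  unfold aj
  have h1 := Nat.choose_succ_right_eq N j
  have h2 : N - j = (N - (j + 1)) + 1 := by omega
  calc N.choose (j + 1) * m ^ (j + 1) * (N - m) ^ (N - (j + 1)) * ((j + 1) * (N - m)) =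
      (N.choose (j + 1) * (j + 1)) * m ^ (j + 1) * ((N - m) ^ (N - (j + 1)) * (N - m)) := by ring
    _ = (N.choose j * (N - j)) * m ^ (j + 1) * ((N - m) ^ (N - (j + 1) + 1)) := by rw [h1, ← pow_succ]
    _ = (N.choose j * (N - j)) * m ^ (j + 1) * ((N - m) ^ (N - j)) := by rw [← h2]
    _ = N.choose j * m ^ j * (N - m) ^ (N - j) * ((N - j) * m) := by ring

theorem aj_up {N m j : ℕ} (hm : m < N) (hj : j < m) : aj N m j ≤ aj N m (j + 1) := by
  have h1 := aj_succ (N := N) (m := m) (j := j) (by omega)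
  have h2 : (j + 1) * (N - m) ≤ (N - j) * m := by
    rw [mul_comm (N - j)]
    exact Nat.mul_le_mul (by omega) (by omega)
  have h3 : 0 < (j + 1) * (N - m) := Nat.mul_pos (by omega) (by omega)
  have h4 : aj N m j * ((j + 1) * (N - m)) ≤ aj N m (j + 1) * ((j + 1) * (N - m)) := by
    rw [h1]
    exact Nat.mul_le_mul_left _ h2
  exact Nat.le_of_mul_le_mul_right h4 h3

theorem aj_down {N m j : ℕ} (hm : m ≤ j) (hj : j < N) : aj N m (j + 1) ≤ aj N m j := by
  have h1 := aj_succ (N := N) (m := m) (j := j) hj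
  have h2 : (N - j) * m ≤ (j + 1) * (N - m) := by
    rw [mul_comm (N - j)]
    exact Nat.mul_le_mul (by omega) (by omega)
  have h3 : 0 < (j + 1) * (N - m) := Nat.mul_pos (by omega) (by omega)
  have h4 : aj N m (j + 1) * ((j + 1) * (N - m)) ≤ aj N m j * ((j + 1) * (N - m)) := by
    rw [h1]
    exact Nat.mul_le_mul_left _ h2
  exact Nat.le_of_mul_le_mul_right h4 h3

theorem aj_le {N m : ℕ} (hm : m ≤ N) (j : ℕ) (hj : j ≤ N) : aj N m j ≤ aj N m m := by
  rcases Nat.lt_or_ge m N with h | h
  · rcases Nat.lt_or_ge j m with h1 | h1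
    · have key : ∀ i, i ≤ m → aj N m (m - i) ≤ aj N m m := by
        intro i
        induction i with
        | zero => intro _; exact le_rfl
        | succ i ih =>
          intro hi
          have h2 := aj_up (N := N) (m := m) (j := m - (i + 1)) h (by omega)
          have h3 : m - (i + 1) + 1 = m - i := by omega
          rw [h3] at h2
          exact h2.trans (ih (by omega))
      have h2 := key (m - j) (by omega)
      have h3 : m - (m - j) = j := by omega
      rwa [h3] at h2
    · have key : ∀ i, m + i ≤ N → aj N m (m + i) ≤ aj N m m := by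
        intro i
        induction i with
        | zero => intro _; exact le_rfl
        | succ i ih =>
          intro hi
          exact (aj_down (N := N) (m := m) (j := m + i) (by omega) (by omega)).trans (ih (by omega))
      have h2 := key (j - m) (by omega)
      have h3 : m + (j - m) = j := by omega
      rwa [h3] at h2
  · have hmN : m = N := le_antisymm hm h
    subst hmN
    rcases Nat.lt_or_ge j m with h1 | h1
    · unfold aj
      rw [Nat.sub_self, zero_pow (by omega : m - j ≠ 0), mul_zero]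
      exact Nat.zero_le _
    · have : j = m := le_antisymm hj h1
      rw [this]

theorem mode (N m : ℕ) (hm : m ≤ N) (hN : 1 ≤ N) :
    1 ≤ ((N : ℝ) + 1) * ((N.choose m : ℝ) * ((m : ℝ) / N) ^ m * (1 - (m : ℝ) / N) ^ (N - m)) := by
  have h1 : N ^ N ≤ (N + 1) * aj N m m := by
    calc N ^ N = (m + (N - m)) ^ N := by rw [Nat.add_sub_cancel' hm]
      _ = ∑ j ∈ range (N + 1), aj N m j := by
        rw [add_pow]
        apply sum_congr rfl
        intro j _
        unfold aj
        rw [Nat.cast_id]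
        ring
      _ ≤ ∑ j ∈ range (N + 1), aj N m m := sum_le_sum fun j hj => aj_le hm j (by
        rw [mem_range] at hj
        omega)
      _ = (N + 1) * aj N m m := by rw [sum_const, card_range, smul_eq_mul]
  have hNpos : (0 : ℝ) < N := by exact_mod_cast hN
  have h2 : (N : ℝ) ^ N ≤ ((N : ℝ) + 1) * ((N.choose m : ℝ) * (m : ℝ) ^ m * ((N : ℝ) - m) ^ (N - m)) := by
    have h3 : ((N ^ N : ℕ) : ℝ) ≤ (((N + 1) * aj N m m : ℕ) : ℝ) := by exact_mod_cast h1
    unfold aj at h3
    push_cast [Nat.cast_sub hm] at h3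
    exact h3
  have h4 : ((N.choose m : ℝ) * ((m : ℝ) / N) ^ m * (1 - (m : ℝ) / N) ^ (N - m)) * (N : ℝ) ^ N =
      (N.choose m : ℝ) * (m : ℝ) ^ m * ((N : ℝ) - m) ^ (N - m) := by
    have h5 : (N : ℝ) ^ N = (N : ℝ) ^ m * (N : ℝ) ^ (N - m) := by
      rw [← pow_add, Nat.add_sub_cancel' hm]
    have h6 : (1 - (m : ℝ) / N) = ((N : ℝ) - m) / N := by
      field_simp
    rw [h5, h6, div_pow, div_pow]
    field_simp
  rw [← h4, ← mul_assoc] at h2
  have h7 : (0 : ℝ) < (N : ℝ) ^ N := by positivity
  have h8 : 1 * (N : ℝ) ^ N ≤ (((N : ℝ) + 1) * ((N.choose m : ℝ) * ((m : ℝ) / N) ^ m * (1 - (m : ℝ) / N) ^ (N - m))) *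
      (N : ℝ) ^ N := by
    rw [one_mul]
    exact h2
  exact le_of_mul_le_mul_right h8 h7

end Pool.Agent.H51.SRG
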